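import Pool.Agent.W870.DX.All

set_option autoImplicit false

/-!
# The star discrepancy of the worst digital shift

For every `N`-point set in `[0,1)^d` and every base `b` some digital shift has star discrepancy at
least `c (log N / log (b log N))^(d-1) / N` (part 1); for `(t,m,d)`-nets in base `b` some digital
shift has star discrepancy at least `c (m/(t+1))^(d-1) / b^m` (part 2); for `d ≥ 3` the first bound
is sharp: for infinitely many `N` there are a prime `b ≤ log N` and an `N`-point set all of whose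
digital shifts in base `b` have star discrepancy at most `C (log N / log log N)^(d-1) / N` (part 3).
-/

namespace Pool.Agent.Results.MP_173de9_an.DigitalShiftMax

open Finset MeasureTheory

/-- The digital shift in base `b` of the number `x ∈ [0,1)` by the digits `w 0, …, w (L-1)`: the
`(a+1)`-st digit `⌊b^(a+1) x⌋ mod b` becomes `(⌊b^(a+1) x⌋ + w a) mod b` for `a < L`, and the later
digits (the part `fract (b^L x) / b^L` of `x`) are kept. -/
noncomputable def digitalShift (b L : ℕ) (w : ℕ → ℕ) (x : ℝ) : ℝ :=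
  (∑ a ∈ range L, (((⌊(b:ℝ) ^ (a + 1) * x⌋₊ + w a) % b : ℕ) : ℝ) / (b:ℝ) ^ (a + 1)) +
    Int.fract ((b:ℝ) ^ L * x) / (b:ℝ) ^ L

/-- The digital shift of a point set: each coordinate `j` of all the points is shifted by its own
digits `w j`. -/
noncomputable def shiftSet {N d : ℕ} (b L : ℕ) (w : Fin d → ℕ → ℕ) (ξ : Fin N → Fin d → ℝ) :
    Fin N → Fin d → ℝ := fun μ j => digitalShift b L (w j) (ξ μ j)

/-- The local discrepancy `∏ x_j - (1/m) Σ_μ χ_{[0,x]}(ξ^μ)` of `m` points `ξ` at `x`. -/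
noncomputable def localDisc {m d : ℕ} (ξ : Fin m → Fin d → ℝ) (x : Fin d → ℝ) : ℝ :=
  ∏ j, x j - (1 / (m:ℝ)) * ∑ μ : Fin m, (Set.Icc (0 : Fin d → ℝ) x).indicator (fun _ => (1:ℝ)) (ξ μ)

/-- `D(ξ,m,d)_∞`: the `L_∞` norm of the local discrepancy over `[0,1]^d`. -/
noncomputable def starDisc {m d : ℕ} (ξ : Fin m → Fin d → ℝ) : ENNReal :=
  eLpNorm (localDisc ξ) ⊤ (volume.restrict (Set.Icc (0 : Fin d → ℝ) 1))

open Classical in
/-- `(t,m,d)`-nets in base `b`: every elementary interval `∏ [v_i b^(-k_i), (v_i+1) b^(-k_i))` of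
volume `b^(t-m)` contains exactly `b^t` of the `b^m` points. -/
def IsNet (b t m : ℕ) {d : ℕ} (ξ : Fin (b ^ m) → Fin d → ℝ) : Prop :=
  ∀ k v : Fin d → ℕ, ∑ i, k i + t = m → (∀ i, v i < b ^ k i) →
    (univ.filter (fun μ => ∀ i, (v i : ℝ) / (b:ℝ) ^ k i ≤ ξ μ i ∧
      ξ μ i < ((v i : ℝ) + 1) / (b:ℝ) ^ k i)).card = b ^ t

/-- **Theorem.** The star discrepancy of the worst digital shift: lower bounds for all point sets
and for all `(t,m,d)`-nets, and sharpness of the first bound. -/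
theorem result (d : ℕ) (hd : 1 ≤ d) :
    (∃ c : ℝ, 0 < c ∧ ∀ b N : ℕ, 2 ≤ b → 3 ≤ N →
      ∀ ξ : Fin N → Fin d → ℝ, (∀ μ j, 0 ≤ ξ μ j ∧ ξ μ j < 1) →
        ∃ (L : ℕ) (w : Fin d → ℕ → ℕ),
          ENNReal.ofReal (c * (Real.log N / Real.log (b * Real.log N)) ^ (d - 1) / N) ≤
            starDisc (shiftSet b L w ξ)) ∧
    (∃ c : ℝ, 0 < c ∧ ∀ b t m : ℕ, 2 ≤ b →
      ∀ ξ : Fin (b ^ m) → Fin d → ℝ, (∀ μ j, 0 ≤ ξ μ j ∧ ξ μ j < 1) → IsNet b t m ξ →
        ∃ (L : ℕ) (w : Fin d → ℕ → ℕ),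
          ENNReal.ofReal (c * ((m:ℝ) / (t + 1)) ^ (d - 1) / (b:ℝ) ^ m) ≤
            starDisc (shiftSet b L w ξ)) ∧
    (3 ≤ d → ∃ C : ℝ, 0 < C ∧ ∀ N₀ : ℕ, ∃ N b : ℕ, N₀ ≤ N ∧ b.Prime ∧ (b:ℝ) ≤ Real.log N ∧
      ∃ ξ : Fin N → Fin d → ℝ, (∀ μ j, 0 ≤ ξ μ j ∧ ξ μ j < 1) ∧
        ∀ (L : ℕ) (w : Fin d → ℕ → ℕ), starDisc (shiftSet b L w ξ) ≤
          ENNReal.ofReal (C * (Real.log N / Real.log (Real.log N)) ^ (d - 1) / N)) :=
  ⟨Pool.Agent.W870.DX.All.partA d hd, Pool.Agent.W870.DX.All.partB d hd,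
    Pool.Agent.W870.DX.All.partC d⟩

end Pool.Agent.Results.MP_173de9_an.DigitalShiftMax
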