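import Pool.Agent.W170.DS.Integ

set_option autoImplicit false

/-!
# The mean star discrepancy over the digital shifts of one coordinate

For every point set (with arbitrary weights) the mean of the `L_∞` star discrepancy over the
binary digital shifts of a single coordinate is at least `c (log N)^(D/2) / N`, `D = d + 1`.
-/

namespace Pool.Agent.Results.MP_173de9_an.DigitalShiftMean

open Finset MeasureTheory Pool.Agent.W170.DS

theorem result (d : ℕ) (hd : 1 ≤ d) :
    ∃ c : ℝ, 0 < c ∧ ∀ N : ℕ, 2 ≤ N →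
      ∀ (w : Fin N → ℝ) (ξ : Fin N → Fin (d + 1) → ℝ) (i : Fin (d + 1)),
        (∀ μ, ξ μ ∈ Set.Icc (0 : Fin (d + 1) → ℝ) 1) → (∀ μ, ξ μ i < 1) → ∀ m : ℕ,
          ENNReal.ofReal
              (c * (min (m : ℝ) (Real.log N) * Real.log N ^ (((d : ℝ) - 1) / 2)) / N) ≤
            (∑ σ ∈ range (2 ^ m),
              starDisc w (fun μ => Function.update (ξ μ) i (digitalShift m σ (ξ μ i)))) /
                2 ^ m := by
  classical
  obtain ⟨ε, hε, c0, hc0, H⟩ := H730R2.LD.measure_sharp d hd 2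
  have hα : 0 ≤ ((d : ℝ) - 1) / 2 := by
    have : (1 : ℝ) ≤ d := by exact_mod_cast hd
    linarith
  refine ⟨ε * c0 * (1 / 2) ^ (((d : ℝ) - 1) / 2) / 16, by positivity, ?_⟩
  intro N hN w ξ i hξ hξ1 m
  have hN0 : 0 < N := by omega
  have hNR : (0 : ℝ) < N := by exact_mod_cast hN0
  have hlog : 0 ≤ Real.log N := Real.log_nonneg (by exact_mod_cast (by omega : 1 ≤ N))
  set p : Fin N → ℝ := fun μ => ξ μ i with hp
  set q : Fin N → Fin d → ℝ := fun μ j => ξ μ (i.succAbove j) with hq
  have hp01 : ∀ μ, 0 ≤ p μ ∧ p μ < 1 := fun μ => ⟨(hξ μ).1 i, hξ1 μ⟩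
  set ζ : ℕ → Fin N → Fin (d + 1) → ℝ :=
    fun σ μ => Function.update (ξ μ) i (digitalShift m σ (ξ μ i)) with hζ
  have hζ0 : ∀ σ μ, 0 ≤ ζ σ μ := by
    intro σ μ j
    by_cases hj : j = i
    · subst hj
      simp only [hζ, Function.update_self]
      exact digitalShift_nonneg _ _ _
    · simp only [hζ, Function.update_of_ne hj]
      exact (hξ μ).1 j
  have hζi : ∀ σ μ, ζ σ μ i = digitalShift m σ (p μ) := by
    intro σ μ
    simp only [hζ, Function.update_self, hp]
  have hζs : ∀ σ μ j, ζ σ μ (i.succAbove j) = q μ j := by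
    intro σ μ j
    simp only [hζ, hq, Function.update_of_ne (Fin.succAbove_ne i j)]
  by_cases htop : ∃ σ ∈ range (2 ^ m), starDisc w (ζ σ) = ⊤
  · obtain ⟨σ, hσ, h⟩ := htop
    have h1 : (∑ σ ∈ range (2 ^ m), starDisc w (ζ σ)) = ⊤ := by
      rw [ENNReal.sum_eq_top]
      exact ⟨σ, hσ, h⟩
    change _ ≤ (∑ σ ∈ range (2 ^ m), starDisc w (ζ σ)) / 2 ^ m
    rw [h1, ENNReal.top_div_of_ne_top (ENNReal.pow_ne_top (by norm_num))]
    exact le_top
  push Not at htop
  set α : ℝ := ((d : ℝ) - 1) / 2 with hαdef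
  set θ : ℝ := c0 * ((1 / 2) * Real.log N) ^ α with hθ
  set J : ℕ := min m (Nat.log 4 N + 1) with hJ
  set G : ℕ → Finset ℕ := fun j => (range (2 ^ j)).filter
      (fun k => ((blk m j k p).card : ℝ) ≤ 2 * (N / 2 ^ j)) with hG
  set B : ℝ := (1 / 2 ^ m) * ∑ σ ∈ range (2 ^ m), N * (starDisc w (ζ σ)).toReal with hB
  -- the pointwise bound
  have hpt : ∀ᵐ y : Fin d → ℝ, y ∈ Set.Icc (0 : Fin d → ℝ) 1 →
      ∑ j ∈ range J, ∑ k ∈ G j, (1 / 2 ^ j) *
        |H736R2.Lone.disc (blk m j k p) (fun μ => N * w μ) q (N / 2 ^ j) y| ≤ 4 * B := by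
    have hae : ∀ᵐ y : Fin d → ℝ, ∀ σ ∈ range (2 ^ m), y ∈ Set.Icc (0 : Fin d → ℝ) 1 →
        ∀ t₀ : ℝ, 0 < t₀ → t₀ ≤ 1 →
          |leftDisc w (ζ σ) i t₀ y| ≤ (starDisc w (ζ σ)).toReal := by
      rw [Filter.eventually_all_finset]
      intro σ hσ
      exact ae_slice w (ζ σ) (hζ0 σ) i (htop σ hσ)
    filter_upwards [hae] with y hy hy01
    have hlev := levels_le m (cellMass m p q w y) (fun σ => N * (starDisc w (ζ σ)).toReal) (by
      intro s hs X hX
      rcases Nat.eq_zero_or_pos X with rfl | hX0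
      · have : psum m (cellMass m p q w y) s 0 = 0 := by
          unfold psum
          simp
        rw [this, abs_zero]
        positivity
      · rw [psum_cellMass m p q w hp01 y hs hX i (ζ s) (hζi s) (hζs s), abs_neg, abs_mul,
          abs_of_pos hNR]
        apply mul_le_mul_of_nonneg_left _ hNR.le
        apply hy s (mem_range.2 hs) hy01
        · have : (0 : ℝ) < X := by exact_mod_cast hX0
          positivity
        · rw [div_le_one (by positivity)]
          exact_mod_cast hX)
    have hle : ∑ j ∈ range J, ∑ k ∈ G j, (1 / 2 ^ j) *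
        |H736R2.Lone.disc (blk m j k p) (fun μ => N * w μ) q (N / 2 ^ j) y| ≤
        ∑ j ∈ range m, lev m j (cellMass m p q w y) (fun t => |t|) := by
      have hJm : J ≤ m := min_le_left _ _
      refine le_trans ?_ (Finset.sum_le_sum_of_subset_of_nonneg
        (Finset.range_subset_range.2 hJm) ?_)
      · apply Finset.sum_le_sum
        intro j hj
        have hjm : j ≤ m := by
          have := mem_range.1 hj
          omega
        unfold lev
        rw [Finset.mul_sum]
        have hsub : G j ⊆ range (2 ^ j) := Finset.filter_subset _ _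
        refine le_trans ?_ (Finset.sum_le_sum_of_subset_of_nonneg hsub ?_)
        · apply Finset.sum_le_sum
          intro k _
          rw [block_sum m j k hjm p q w y]
        · intro k _ _
          positivity
      · intro j _ _
        unfold lev
        apply mul_nonneg (by positivity)
        apply Finset.sum_nonneg
        intro k _
        exact abs_nonneg _
    linarith
  -- integration
  have hint : ENNReal.ofReal (J * (1 / 2) * (θ * ε)) ≤ ENNReal.ofReal (4 * B) := by
    have h1 : ∫⁻ y in Set.Icc (0 : Fin d → ℝ) 1, ENNReal.ofReal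
        (∑ j ∈ range J, ∑ k ∈ G j, (1 / 2 ^ j) *
          |H736R2.Lone.disc (blk m j k p) (fun μ => N * w μ) q (N / 2 ^ j) y|) ≤
        ENNReal.ofReal (4 * B) := by
      calc _ ≤ ∫⁻ y in Set.Icc (0 : Fin d → ℝ) 1, ENNReal.ofReal (4 * B) := by
            apply lintegral_mono_ae
            rw [ae_restrict_iff' measurableSet_Icc]
            filter_upwards [hpt] with y hy hy01
            exact ENNReal.ofReal_le_ofReal (hy hy01)
        _ = ENNReal.ofReal (4 * B) := by
            rw [lintegral_const, Measure.restrict_apply MeasurableSet.univ, Set.univ_inter,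
              Real.volume_Icc_pi]
            simp
    refine le_trans ?_ h1
    have h2 : ∀ y : Fin d → ℝ, ENNReal.ofReal (∑ j ∈ range J, ∑ k ∈ G j, (1 / 2 ^ j) *
          |H736R2.Lone.disc (blk m j k p) (fun μ => N * w μ) q (N / 2 ^ j) y|) =
        ∑ j ∈ range J, ∑ k ∈ G j, ENNReal.ofReal ((1 / 2 ^ j) *
          |H736R2.Lone.disc (blk m j k p) (fun μ => N * w μ) q (N / 2 ^ j) y|) := by
      intro y
      rw [ENNReal.ofReal_sum_of_nonneg]
      · apply Finset.sum_congr rfl
        intro j _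
        rw [ENNReal.ofReal_sum_of_nonneg]
        intro k _
        positivity
      · intro j _
        apply Finset.sum_nonneg
        intro k _
        positivity
    have hmeas : ∀ j k, Measurable (fun y : Fin d → ℝ => ENNReal.ofReal ((1 / 2 ^ j) *
          |H736R2.Lone.disc (blk m j k p) (fun μ => N * w μ) q (N / 2 ^ j) y|)) := by
      intro j k
      apply Measurable.ennreal_ofReal
      exact (H736R2.Lone.measurable_disc _ _ _ _).abs.const_mul _
    simp only [h2]
    rw [lintegral_finsetSum _ (fun j _ => Finset.measurable_fun_sum _ (fun k _ => hmeas j k))]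
    have h3 : ∀ j ∈ range J, ENNReal.ofReal ((1 / 2) * (θ * ε)) ≤
        ∫⁻ y in Set.Icc (0 : Fin d → ℝ) 1, ∑ k ∈ G j, ENNReal.ofReal ((1 / 2 ^ j) *
          |H736R2.Lone.disc (blk m j k p) (fun μ => N * w μ) q (N / 2 ^ j) y|) := by
      intro j hj
      have hj' := mem_range.1 hj
      have hjm : j ≤ m := by omega
      have hj4 : j ≤ Nat.log 4 N := by omega
      obtain ⟨hs1, hs2⟩ := level_size hN hj4
      rw [lintegral_finsetSum _ (fun k _ => hmeas j k)]
      have hθ0 : 0 ≤ θ := by positivity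
      have h4 : ∀ k ∈ G j, ENNReal.ofReal ((1 / 2 ^ j) * (θ * ε)) ≤
          ∫⁻ y in Set.Icc (0 : Fin d → ℝ) 1, ENNReal.ofReal ((1 / 2 ^ j) *
          |H736R2.Lone.disc (blk m j k p) (fun μ => N * w μ) q (N / 2 ^ j) y|) := by
        intro k hk
        have hk2 := (mem_filter.1 hk).2
        have hH := H (N / 2 ^ j) hs1 (Fin N) (blk m j k p) (fun μ => N * w μ) q hk2
        have hH2 : ENNReal.ofReal ε ≤ volume {x : Fin d → ℝ | x ∈ Set.Icc (0 : Fin d → ℝ) 1 ∧
            θ ≤ |H736R2.Lone.disc (blk m j k p) (fun μ => N * w μ) q (N / 2 ^ j) x|} := by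
          refine hH.trans (measure_mono ?_)
          intro x hx
          refine ⟨hx.1, le_trans ?_ hx.2⟩
          rw [hθ]
          apply mul_le_mul_of_nonneg_left _ hc0.le
          exact Real.rpow_le_rpow (by positivity) hs2 hα
        refine le_trans ?_ (lintegral_disc_ge (blk m j k p) (fun μ => N * w μ) q (N / 2 ^ j) θ ε
          (1 / 2 ^ j) (by positivity) hH2)
        rw [← ENNReal.ofReal_mul (by positivity)]
        apply le_of_eq
        congr 1
        ring
      refine le_trans ?_ (Finset.sum_le_sum h4)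
      rw [Finset.sum_const, nsmul_eq_mul, ← ENNReal.ofReal_natCast,
        ← ENNReal.ofReal_mul (Nat.cast_nonneg _)]
      apply ENNReal.ofReal_le_ofReal
      have hg := card_good m j hjm hN0 p hp01
      have h2j : (0 : ℝ) < 2 ^ j := by positivity
      have h5 : (0 : ℝ) ≤ (1 / 2 ^ j) * (θ * ε) := by positivity
      calc (1 / 2) * (θ * ε) = (2 ^ j / 2) * ((1 / 2 ^ j) * (θ * ε)) := by
            field_simp
        _ ≤ _ := mul_le_mul_of_nonneg_right hg h5
    refine le_trans ?_ (Finset.sum_le_sum h3)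
    rw [Finset.sum_const, card_range, nsmul_eq_mul, ← ENNReal.ofReal_natCast,
      ← ENNReal.ofReal_mul (Nat.cast_nonneg _)]
    apply le_of_eq
    congr 1
    ring
  have hB0 : 0 ≤ B := by
    rw [hB]
    positivity
  have hreal : J * (1 / 2) * (θ * ε) ≤ 4 * B := by
    rwa [ENNReal.ofReal_le_ofReal_iff (by positivity)] at hint
  -- conclusion
  change _ ≤ (∑ σ ∈ range (2 ^ m), starDisc w (ζ σ)) / 2 ^ m
  have hsum : (∑ σ ∈ range (2 ^ m), starDisc w (ζ σ)) =
      ENNReal.ofReal (∑ σ ∈ range (2 ^ m), (starDisc w (ζ σ)).toReal) := by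
    rw [ENNReal.ofReal_sum_of_nonneg (fun σ _ => ENNReal.toReal_nonneg)]
    apply Finset.sum_congr rfl
    intro σ hσ
    rw [ENNReal.ofReal_toReal (htop σ hσ)]
  have h2m : (2 : ENNReal) ^ m = ENNReal.ofReal (2 ^ m) := by
    rw [ENNReal.ofReal_pow (by norm_num)]
    simp
  rw [hsum, h2m, ← ENNReal.ofReal_div_of_pos (by positivity)]
  apply ENNReal.ofReal_le_ofReal
  have hBeq : B = N * ((∑ σ ∈ range (2 ^ m), (starDisc w (ζ σ)).toReal) / 2 ^ m) := by
    rw [hB, ← Finset.mul_sum]
    ring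
  rw [div_le_iff₀ hNR, mul_comm _ (N : ℝ), ← hBeq]
  have hJc := levels_count hN m
  have hpow : ((1 / 2) * Real.log N) ^ α = (1 / 2) ^ α * Real.log N ^ α :=
    Real.mul_rpow (by norm_num) hlog
  have h6 : (1 / 2) * min (m : ℝ) (Real.log N) * (1 / 2) * (θ * ε) ≤ 4 * B := by
    refine le_trans ?_ hreal
    have : 0 ≤ (1 / 2 : ℝ) * (θ * ε) := by positivity
    nlinarith
  rw [hθ, hpow] at h6
  nlinarith

end Pool.Agent.Results.MP_173de9_an.DigitalShiftMean
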